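import Pool.Agent.H.MP_f4be1e_co.B

namespace Pool.Agent.Results.MP_f4be1e_co.Yes

open Finset

/-- The number of proper colourings of `G` with `n` colours. -/
noncomputable def chi {d : ℕ} (G : SimpleGraph (Fin d)) (n : ℕ) : ℕ :=
  Nat.card {c : Fin d → Fin n // ∀ u v, G.Adj u v → c u ≠ c v}

theorem chi_eq {d : ℕ} (G : SimpleGraph (Fin d)) (E : Finset (Fin d × Fin d))
    (hE : ∀ p, p ∈ E ↔ G.Adj p.1 p.2) (n : ℕ) :
    chi G n = Pool.Agent.H.MP_f4be1e_co.chi E n := by
  classical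
  unfold chi Pool.Agent.H.MP_f4be1e_co.chi
  rw [Nat.card_eq_fintype_card, Fintype.card_subtype]
  refine Finset.card_bij (fun c _ => fun v => (c v : ℕ)) ?_ ?_ ?_
  · intro c hc
    simp only [mem_filter, mem_univ, true_and, Fintype.mem_piFinset, mem_range] at hc ⊢
    exact ⟨fun a => (c a).2, fun p hp h => hc _ _ ((hE p).1 hp) (Fin.ext h)⟩
  · intro a _ b _ h
    funext v
    exact Fin.ext (congrFun h v)
  · intro f hf
    simp only [mem_filter, Fintype.mem_piFinset, mem_range] at hf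
    refine ⟨fun v => ⟨f v, hf.1 v⟩, ?_, rfl⟩
    simp only [mem_filter, mem_univ, true_and]
    intro u v huv h
    exact hf.2 (u, v) ((hE _).2 huv) (congrArg Fin.val h)

theorem coeff_poly (N : ℕ) (a : ℕ → ℤ) (k : ℕ) :
    (∑ j ∈ range N, Polynomial.monomial j (a j)).coeff k = if k < N then a k else 0 := by
  simp [Polynomial.coeff_monomial]

theorem rev_sum (c : ℕ → ℤ) (d i : ℕ) (hi : i ≤ d + 1) :
    ∑ k ∈ range i, c (d - k) = ∑ k ∈ range (d + 1), c k - ∑ k ∈ range (d + 1 - i), c k := by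
  induction i with
  | zero => simp
  | succ i ih =>
    rw [sum_range_succ, ih (by omega), show d + 1 - i = (d - i) + 1 by omega, sum_range_succ c (d - i),
      show d + 1 - (i + 1) = d - i by omega]
    ring

theorem result (d : ℕ) (hd : 1 ≤ d) (G : SimpleGraph (Fin d)) :
    ∃ h : Polynomial ℤ,
      (h : PowerSeries ℤ) =
        (1 - PowerSeries.X) ^ (d + 1) * PowerSeries.mk (fun n => (chi G n : ℤ)) ∧
      h.natDegree ≤ d ∧
      (∀ i, i ≤ d → 0 ≤ ∑ k ∈ range i, h.coeff (d - k) - ∑ k ∈ range (i + 1), h.coeff k) ∧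
      ∃ a b : Polynomial ℤ, h = a + Polynomial.X * b ∧
        a.natDegree ≤ d ∧ (∀ k, k ≤ d → a.coeff k = a.coeff (d - k)) ∧
        b.natDegree ≤ d - 1 ∧ (∀ k, k ≤ d - 1 → b.coeff k = b.coeff (d - 1 - k)) ∧
        (∀ k, 0 ≤ b.coeff k) ∧ ∀ k, a.coeff k ≤ 0 := by
  classical
  obtain ⟨m, rfl⟩ : ∃ m, d = m + 1 := ⟨d - 1, by omega⟩
  obtain ⟨E, hE⟩ : ∃ E : Finset (Fin (m + 1) × Fin (m + 1)), ∀ p, p ∈ E ↔ G.Adj p.1 p.2 :=
    ⟨univ.filter (fun p => G.Adj p.1 p.2), by simp⟩
  obtain ⟨c, hc⟩ : ∃ c : ℕ → ℤ, c = fun k => PowerSeries.coeff k (Pool.Agent.H.MP_f4be1e_co.hS E) :=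
    ⟨_, rfl⟩
  obtain ⟨b1, b2, b3⟩ := Pool.Agent.H.MP_f4be1e_co.hS_basic E
  have c1 : ∀ k, 0 ≤ c k := by rw [hc]; exact b1
  have c3 : ∀ k, m + 1 < k → c k = 0 := by rw [hc]; exact b3
  have c4 : ∀ i, i ≤ m + 1 → ∑ k ∈ range (i + 1), c k ≤ ∑ k ∈ range i, c (m + 1 - k) := by
    rw [hc]; exact Pool.Agent.H.MP_f4be1e_co.main E
  have hco : ∀ k, (∑ j ∈ range (m + 2), Polynomial.monomial j (c j)).coeff k = c k := by
    intro k
    rw [coeff_poly]
    split_ifs with h
    · rfl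
    · exact (c3 k (by omega)).symm
  obtain ⟨P, hP⟩ : ∃ P : ℕ → ℤ, ∀ j, P j = ∑ k ∈ range j, c k := ⟨_, fun _ => rfl⟩
  have hPs : ∀ j, P (j + 1) = P j + c j := fun j => by rw [hP, hP, sum_range_succ]
  have c5 : ∀ i, i ≤ m + 1 → P (i + 1) ≤ P (m + 2) - P (m + 2 - i) := by
    intro i hi
    have := c4 i hi
    rw [rev_sum c (m + 1) i (by omega)] at this
    rw [hP, hP, hP]
    exact this
  refine ⟨∑ j ∈ range (m + 2), Polynomial.monomial j (c j), ?_, ?_, ?_,
    ∑ j ∈ range (m + 2), Polynomial.monomial j (P (j + 1) + P (m + 2 - j) - P (m + 2)),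
    ∑ j ∈ range (m + 1), Polynomial.monomial j (P (m + 2) - P (m + 1 - j) - P (j + 1)),
    ?_, ?_, ?_, ?_, ?_, ?_, ?_⟩
  · ext k
    rw [Polynomial.coeff_coe, hco, hc]
    simp only [chi_eq G E hE]
    rfl
  · rw [Polynomial.natDegree_le_iff_coeff_eq_zero]
    intro k hk
    rw [hco, c3 k hk]
  · intro i hi
    simp only [hco]
    have := c4 i hi
    linarith
  · ext k
    rw [hco, Polynomial.coeff_add]
    obtain _ | k := k
    · rw [Polynomial.mul_coeff_zero, coeff_poly, if_pos (by omega), hPs, hP 0]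
      simp
    · rw [Polynomial.coeff_X_mul, coeff_poly, coeff_poly]
      by_cases hk : k < m + 1
      · rw [if_pos (by omega), if_pos hk, hPs (k + 1), show m + 2 - (k + 1) = m + 1 - k by omega]
        ring
      · rw [if_neg (by omega), if_neg hk, c3 _ (by omega)]
        simp
  · rw [Polynomial.natDegree_le_iff_coeff_eq_zero]
    intro k hk
    rw [coeff_poly, if_neg (by omega)]
  · intro k hk
    rw [coeff_poly, coeff_poly, if_pos (by omega), if_pos (by omega),
      show m + 1 - k + 1 = m + 2 - k by omega, show m + 2 - (m + 1 - k) = k + 1 by omega]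
    ring
  · rw [Polynomial.natDegree_le_iff_coeff_eq_zero]
    intro k hk
    rw [coeff_poly, if_neg (by omega)]
  · intro k hk
    rw [coeff_poly, coeff_poly, if_pos (by omega), if_pos (by omega),
      show m + 1 - 1 - k + 1 = m + 1 - k by omega, show m + 1 - (m + 1 - 1 - k) = k + 1 by omega]
    ring
  · intro k
    rw [coeff_poly]
    split_ifs with hk
    · have h1 := c5 k (by omega)
      have h2 := hPs (m + 1 - k)
      have h3 := c1 (m + 1 - k)
      rw [show m + 1 - k + 1 = m + 2 - k by omega] at h2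
      linarith
    · exact le_rfl
  · intro k
    rw [coeff_poly]
    split_ifs with hk
    · have h1 := c5 k (by omega)
      linarith
    · exact le_rfl

end Pool.Agent.Results.MP_f4be1e_co.Yes
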